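import Pool.Agent.R884.BMOStar.Proof

set_option autoImplicit false

/-!
# `BMO` embeds into `BMO_X` but `BMO*_X` is not contained in `BMO`

For every dimension `n ≥ 1` there is a normalized family `X = {X_Q}` of (quasi-)Banach function
spaces on the cubes `Q` of `ℝ^n` such that `BMO` embeds into `BMO_X`, although there is a locally
integrable function which belongs to `BMO*_X` and not to `BMO`.

Construction: `X_Q` is a weighted normalized `L¹(Q)`. The weight is `1`, except that for small cubes
`Q` cut by the hyperplane `x_0 = 2 k`, `k ≥ 1`, it is `1 + 1/k` on the larger part of `Q` and `1/k`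
on the smaller part. The function has a logarithmic peak, cut off at height `k`, to the right of
this hyperplane, and vanishes to the left of it.
-/

namespace Pool.Agent.Results.MP_ea8870_an.StarEmbeddingFails

open MeasureTheory Pool.Agent.R884.BMOStar

/-- **Main theorem.** In every dimension `n ≥ 1` there is a normalized family `X = {X_Q}` of
quasi-Banach function spaces over the cubes of `ℝ^n` such that `BMO` embeds into `BMO_X`, and
`BMO*_X` does not embed into `BMO`; there is even a locally integrable function in `BMO*_X` which
is not in `BMO`. -/
theorem result (n : ℕ) (hn : 1 ≤ n) :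
    ∃ X : Family n, (∀ Q, IsQuasiBanachFunctionNorm Q (X Q)) ∧ IsNormalized X ∧
      Embeds (BMO n) (BMOX X) (bmoX L1) (bmoX X) ∧
      ¬ Embeds (BMOStarX X) (BMO n) (bmoStarX X) (bmoX L1) ∧
      ∃ f, f ∈ BMOStarX X ∧ LocallyIntegrable f ∧ f ∉ BMO n :=
  Pool.Agent.R884.BMOStar.main n hn

end Pool.Agent.Results.MP_ea8870_an.StarEmbeddingFails
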